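import Pool.Agent.Helper58.Bil.SysDefs

set_option autoImplicit false

/-!
MP_190632_an, piece PRO (captain: helper58): profile calculus and prolongation lemmas.
-/

namespace Pool.Agent.Helper58.Bil

open Real Set Filter Topology

/-! ## Piece PRO (chi, kt, k2 calculus and prolongation) -/

theorem chi_smooth : ContDiff ℝ ((⊤ : ℕ∞) : WithTop ℕ∞) chi := by
  unfold chi
  exact smoothTransition.contDiff.comp (contDiff_const.mul contDiff_id)

theorem gg_den_pos (x : ℝ) : 0 < expNegInvGlue (10 * x) + expNegInvGlue (1 - 10 * x) :=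
  smoothTransition.pos_denom (10 * x)

theorem gg_smooth : ContDiff ℝ ((⊤ : ℕ∞) : WithTop ℕ∞) gg := by
  unfold gg
  refine ContDiff.div contDiff_const ?_ (fun x => (gg_den_pos x).ne')
  exact (expNegInvGlue.contDiff.comp (contDiff_const.mul contDiff_id)).add
    (expNegInvGlue.contDiff.comp (contDiff_const.sub (contDiff_const.mul contDiff_id)))

theorem gg_pos (x : ℝ) : 0 < gg x := one_div_pos.2 (gg_den_pos x)

theorem kt_smooth : ContDiff ℝ ((⊤ : ℕ∞) : WithTop ℕ∞) kt := by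
  unfold kt
  have h1 : ContDiff ℝ ((⊤ : ℕ∞) : WithTop ℕ∞) (deriv gg) :=
    (contDiff_infty_iff_deriv.1 gg_smooth).2
  exact contDiff_const.add ((contDiff_id.pow 2).mul (h1.div gg_smooth fun x => (gg_pos x).ne'))

/-- more generally `chi x / x ^ n` is smooth (flat at `0`), for every `n`. -/
theorem chi_div_smooth (n : ℕ) :
    ContDiff ℝ ((⊤ : ℕ∞) : WithTop ℕ∞) (fun x => chi x / x ^ n) := by
  have h1 : ContDiff ℝ ((⊤ : ℕ∞) : WithTop ℕ∞)
      (fun x : ℝ => ((Polynomial.X : Polynomial ℝ) ^ n).eval x⁻¹ * expNegInvGlue x) :=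
    expNegInvGlue.contDiff_polynomial_eval_inv_mul _
  have h2 := (h1.comp (contDiff_const.mul contDiff_id :
    ContDiff ℝ ((⊤ : ℕ∞) : WithTop ℕ∞) (fun x : ℝ => (10 : ℝ) * x))).mul gg_smooth
  have h3 := (contDiff_const (c := (10 : ℝ) ^ n) (𝕜 := ℝ) (E := ℝ)
    (n := ((⊤ : ℕ∞) : WithTop ℕ∞))).mul h2
  have hfun : (fun x => chi x / x ^ n) = fun x => (10 : ℝ) ^ n *
      ((((fun x : ℝ => ((Polynomial.X : Polynomial ℝ) ^ n).eval x⁻¹ * expNegInvGlue x) ∘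
        fun x => 10 * x) x) * gg x) := by
    funext x
    simp only [Function.comp, Polynomial.eval_pow, Polynomial.eval_X]
    unfold chi gg smoothTransition
    have h10 : (10 : ℝ) ^ n ≠ 0 := by positivity
    have hd := (gg_den_pos x).ne'
    rw [mul_inv, mul_pow, inv_pow, inv_pow]
    field_simp
  rw [hfun]
  exact h3

theorem chi_nonpos {x : ℝ} (hx : x ≤ 0) : chi x = 0 :=
  smoothTransition.zero_of_nonpos (by linarith)

theorem chi_pos {x : ℝ} (hx : 0 < x) : 0 < chi x := smoothTransition.pos_of_pos (by linarith)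

theorem chi_le_one (x : ℝ) : chi x ≤ 1 := smoothTransition.le_one _

theorem chi_mono : Monotone chi := fun x y h => smoothTransition.monotone (by linarith)

theorem chi_one {x : ℝ} (hx : 1 / 10 ≤ x) : chi x = 1 :=
  smoothTransition.one_of_one_le (by linarith)

theorem chi_eq {x : ℝ} (hx : 0 < x) : chi x = exp (-(1 / 10) / x) * gg x := by
  have h1 : expNegInvGlue (10 * x) = exp (-(1 / 10) / x) := by
    unfold expNegInvGlue
    rw [if_neg (by linarith)]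
    congr 1
    rw [mul_inv]
    ring
  unfold chi gg smoothTransition
  rw [h1]
  ring

theorem chi_diff (x : ℝ) : DifferentiableAt ℝ chi x :=
  (chi_smooth.differentiable (by simp)).differentiableAt

theorem gg_diff (x : ℝ) : DifferentiableAt ℝ gg x :=
  (gg_smooth.differentiable (by simp)).differentiableAt

theorem chi_deriv (x : ℝ) : x ^ 2 * deriv chi x = kt x * chi x := by
  rcases lt_trichotomy x 0 with hx | rfl | hx
  · have h1 : chi =ᶠ[𝓝 x] fun _ => (0 : ℝ) := by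
      filter_upwards [Iio_mem_nhds hx] with y hy
      exact chi_nonpos (le_of_lt hy)
    rw [h1.deriv_eq, deriv_const, chi_nonpos hx.le]
    ring
  · rw [chi_nonpos le_rfl]; ring
  · have h1 : chi =ᶠ[𝓝 x] fun y => exp (-(1 / 10) / y) * gg y := by
      filter_upwards [Ioi_mem_nhds hx] with y hy
      exact chi_eq hy
    have h2 : HasDerivAt (fun y : ℝ => -(1 / 10) / y) ((1 / 10) / x ^ 2) x := by
      have h := (hasDerivAt_inv hx.ne').const_mul (-(1 / 10 : ℝ))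
      refine (h.congr_deriv ?_).congr_of_eventuallyEq ?_
      · field_simp
      · filter_upwards with y
        rw [div_eq_mul_inv]
    have h3 : HasDerivAt (fun y : ℝ => exp (-(1 / 10) / y) * gg y)
        (exp (-(1 / 10) / x) * ((1 / 10) / x ^ 2) * gg x + exp (-(1 / 10) / x) * deriv gg x) x :=
      h2.exp.mul (gg_diff x).hasDerivAt
    rw [h1.deriv_eq, h3.deriv, chi_eq hx]
    unfold kt
    have := (gg_pos x).ne'
    field_simp

theorem th_tt (ε x : ℝ) : th (tt ε) x = kt x * tt ε x := by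
  unfold th tt
  rw [deriv_const_mul _ (chi_diff x), smul_eq_mul]
  linear_combination ε * chi_deriv x

theorem hasDerivAt_k2 {x : ℝ} (hx : 0 < x) :
    HasDerivAt k2 ((deriv chi x * x ^ 2 - chi x * (2 * x)) / (x ^ 2) ^ 2) x := by
  have h1 : HasDerivAt (fun y : ℝ => y ^ 2) (2 * x) x := by
    simpa using hasDerivAt_pow 2 x
  exact (chi_diff x).hasDerivAt.div h1 (by positivity)

theorem hasDerivAt_ts (ε : ℝ) {x : ℝ} (hx : 0 < x) : DifferentiableAt ℝ (ts ε) x :=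
  ((hasDerivAt_k2 hx).const_mul ε).differentiableAt

theorem th_ts (ε : ℝ) {x : ℝ} (hx : 0 < x) : th (ts ε) x = (kt x - 2 * x) * ts ε x := by
  have h := (hasDerivAt_k2 hx).const_mul ε
  unfold th
  have h' : deriv (ts ε) x = ε * ((deriv chi x * x ^ 2 - chi x * (2 * x)) / (x ^ 2) ^ 2) := h.deriv
  rw [h', smul_eq_mul]
  unfold ts k2
  have hc := chi_deriv x
  field_simp
  linear_combination ε * hc

/-- `P` at `s = 0`. -/
theorem PP_zero (x Y : ℝ) : PP 0 x Y = 1 := by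
  unfold PP
  simp [(gg_pos x).ne']

/-- `P` at `Y = 0`. -/
theorem PP_Y_zero (s x : ℝ) : PP s x 0 = 1 := by
  unfold PP
  simp [(gg_pos x).ne']

/-- Joint smoothness of `P`. -/
theorem PP_smooth (s x Y : ℝ) (h : 1 + x * s * Y ≠ 0) :
    ContDiffAt ℝ ((⊤ : ℕ∞) : WithTop ℕ∞) (fun p : ℝ × ℝ × ℝ => PP p.1 p.2.1 p.2.2) (s, x, Y) := by
  unfold PP
  have e1 : ContDiffAt ℝ ((⊤ : ℕ∞) : WithTop ℕ∞) (fun p : ℝ × ℝ × ℝ => p.1) (s, x, Y) :=
    contDiffAt_fst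
  have e2 : ContDiffAt ℝ ((⊤ : ℕ∞) : WithTop ℕ∞) (fun p : ℝ × ℝ × ℝ => p.2.1) (s, x, Y) :=
    contDiffAt_fst.comp _ contDiffAt_snd
  have e3 : ContDiffAt ℝ ((⊤ : ℕ∞) : WithTop ℕ∞) (fun p : ℝ × ℝ × ℝ => p.2.2) (s, x, Y) :=
    contDiffAt_snd.comp _ contDiffAt_snd
  refine ContDiffAt.mul ?_ ?_
  · refine ContDiffAt.exp (contDiffAt_const.mul ((e1.mul e3).div ?_ h))
    exact contDiffAt_const.add ((e2.mul e1).mul e3)
  · refine ContDiffAt.div ?_ ?_ (gg_pos _).ne'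
    · exact gg_smooth.contDiffAt.comp _ (e2.add (((e2.pow 2).mul e1).mul e3))
    · exact gg_smooth.contDiffAt.comp _ e2

/-- The scaled profile. -/
theorem chi_PP {t s x Y : ℝ} (hx : 0 < x) (ht : t = x ^ 2 * s) (hy : 0 < x + t * Y) :
    chi (x + t * Y) = chi x * PP s x Y := by
  subst ht
  have h1 : x + x ^ 2 * s * Y = x * (1 + x * s * Y) := by ring
  have h2 : 0 < 1 + x * s * Y := by
    rw [h1] at hy
    exact (pos_iff_pos_of_mul_pos hy).1 hx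
  rw [chi_eq hx, chi_eq hy]
  unfold PP
  have hg := (gg_pos x).ne'
  have h3 : exp (-(1 / 10) / (x + x ^ 2 * s * Y)) =
      exp (-(1 / 10) / x) * exp ((1 / 10) * (s * Y / (1 + x * s * Y))) := by
    rw [← exp_add]
    congr 1
    rw [h1]
    field_simp
    ring
  rw [h3]
  field_simp

/-- On the plateau `P = 1`. -/
theorem PP_plateau {s x Y : ℝ} (hx : 1 / 10 ≤ x) (hy : 1 / 10 ≤ x + x ^ 2 * s * Y) :
    PP s x Y = 1 := by
  have h := chi_PP (t := x ^ 2 * s) (s := s) (x := x) (Y := Y) (by linarith) rfl (by linarith)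
  rw [chi_one hx, chi_one hy, one_mul] at h
  exact h.symm

/-! ### Prolongation -/

section Prolong

variable {E F : Type} [NormedAddCommGroup E] [NormedSpace ℝ E]
    [NormedAddCommGroup F] [NormedSpace ℝ F]

/-- the projection forgetting the derivative variable -/
def prj (w : ℝ × ℝ × ℝ × (E × E)) : ℝ × ℝ × ℝ × E := (w.1, w.2.1, w.2.2.1, w.2.2.2.1)

theorem prj_contDiff : ContDiff ℝ ((⊤ : ℕ∞) : WithTop ℕ∞)
    (prj : ℝ × ℝ × ℝ × (E × E) → ℝ × ℝ × ℝ × E) := by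
  unfold prj
  fun_prop

theorem SmAt.prj {Φ : ℝ × ℝ × ℝ × E → F} {w : ℝ × ℝ × ℝ × (E × E)} (h : SmAt Φ (Bil.prj w)) :
    ∀ᶠ z in 𝓝 w, ContDiffAt ℝ ((⊤ : ℕ∞) : WithTop ℕ∞) Φ (Bil.prj z) :=
  (prj_contDiff.continuous.tendsto w).eventually h

theorem pro_contDiffAt {Φ : ℝ × ℝ × ℝ × E → F} {z : ℝ × ℝ × ℝ × (E × E)}
    (h : ContDiffAt ℝ ((⊤ : ℕ∞) : WithTop ℕ∞) Φ (prj z)) :
    ContDiffAt ℝ ((⊤ : ℕ∞) : WithTop ℕ∞) (Bil.pro Φ) z := by
  have h1 : ContDiffAt ℝ ((⊤ : ℕ∞) : WithTop ℕ∞) (fderiv ℝ Φ) (prj z) :=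
    h.fderiv_right (by simp)
  have h2 : ContDiffAt ℝ ((⊤ : ℕ∞) : WithTop ℕ∞) (fun w => fderiv ℝ Φ (prj w)) z :=
    h1.comp z prj_contDiff.contDiffAt
  have hk : ContDiff ℝ ((⊤ : ℕ∞) : WithTop ℕ∞) (fun w : ℝ × ℝ × ℝ × (E × E) => kt w.2.2.1) :=
    kt_smooth.comp (by fun_prop)
  have h3 : ContDiff ℝ ((⊤ : ℕ∞) : WithTop ℕ∞) (fun w : ℝ × ℝ × ℝ × (E × E) =>
      ((kt w.2.2.1 * w.1, (kt w.2.2.1 - 2 * w.2.2.1) * w.2.1, w.2.2.1 ^ 2, w.2.2.2.2) :
        ℝ × ℝ × ℝ × E)) := by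
    fun_prop
  exact h2.clm_apply h3.contDiffAt

theorem SF.pro {E F : Type} [NormedAddCommGroup E] [NormedSpace ℝ E]
    [NormedAddCommGroup F] [NormedSpace ℝ F]
    {Φ : ℝ × ℝ × ℝ × E → F} (h : SF Φ) : SF (Bil.pro Φ) := by
  intro x u
  have h1 : SmAt Φ (Bil.prj ((0, 0, x, u) : ℝ × ℝ × ℝ × (E × E))) := h x u.1
  filter_upwards [h1.prj] with z hz
  exact pro_contDiffAt hz

theorem hasDerivAt_WW {ε x : ℝ} (hx : 0 < x) {u : ℝ → E} (hu : DifferentiableAt ℝ u x) :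
    HasDerivAt (WW ε u) (deriv (tt ε) x, deriv (ts ε) x, (1 : ℝ), deriv u x) x := by
  have h1 : HasDerivAt (tt ε) (deriv (tt ε) x) x :=
    ((chi_diff x).const_mul ε).hasDerivAt
  have h2 : HasDerivAt (ts ε) (deriv (ts ε) x) x := (hasDerivAt_ts ε hx).hasDerivAt
  exact h1.prodMk (h2.prodMk ((hasDerivAt_id x).prodMk hu.hasDerivAt))

theorem th_pro {E F : Type} [NormedAddCommGroup E] [NormedSpace ℝ E]
    [NormedAddCommGroup F] [NormedSpace ℝ F]
    {Φ : ℝ × ℝ × ℝ × E → F} {ε x : ℝ} (hx : 0 < x) {u : ℝ → E} (hu : DifferentiableAt ℝ u x)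
    (hΦ : DifferentiableAt ℝ Φ (WW ε u x)) :
    th (fun y => Φ (WW ε u y)) x = pro Φ (WW ε (fun y => (u y, th u y)) x) := by
  have h1 := hΦ.hasFDerivAt.comp_hasDerivAt x (hasDerivAt_WW (ε := ε) hx hu)
  have h2 : deriv (fun y => Φ (WW ε u y)) x = _ := h1.deriv
  unfold th
  rw [h2, ← map_smul]
  have h3 : x ^ 2 • ((deriv (tt ε) x, deriv (ts ε) x, (1 : ℝ), deriv u x) : ℝ × ℝ × ℝ × E) =
      (kt x * tt ε x, (kt x - 2 * x) * ts ε x, x ^ 2, th u x) := by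
    have e1 := th_tt ε x
    have e2 := th_ts ε hx
    unfold th at e1 e2
    rw [Prod.smul_mk, Prod.smul_mk, Prod.smul_mk, e1, e2, smul_eq_mul, mul_one]
    rfl
  rw [h3]
  rfl

theorem qq_contDiffAt {a : ℝ × ℝ × ℝ × E → ℝ} {z : ℝ × ℝ × ℝ × (E × E)}
    (h : ContDiffAt ℝ ((⊤ : ℕ∞) : WithTop ℕ∞) a (prj z)) :
    ContDiffAt ℝ ((⊤ : ℕ∞) : WithTop ℕ∞) (qq a) z := by
  have h1 : ContDiffAt ℝ ((⊤ : ℕ∞) : WithTop ℕ∞) (fun w => a (prj w)) z :=
    h.comp z prj_contDiff.contDiffAt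
  have hk : ContDiff ℝ ((⊤ : ℕ∞) : WithTop ℕ∞) (fun w : ℝ × ℝ × ℝ × (E × E) => kt w.2.2.1) :=
    kt_smooth.comp (by fun_prop)
  exact ((contDiffAt_const.mul hk.contDiffAt).mul h1).add (pro_contDiffAt h)

theorem SF.mm {E : Type} [NormedAddCommGroup E] [NormedSpace ℝ E]
    {a : ℝ × ℝ × ℝ × E → ℝ} (h : SF a) : SF (Bil.mm a) := by
  intro x u
  have h1 : SmAt a (Bil.prj ((0, 0, x, u) : ℝ × ℝ × ℝ × (E × E))) := h x u.1
  have hev := h1.prj
  have hq0 : ContDiffAt ℝ ((⊤ : ℕ∞) : WithTop ℕ∞) (qq a) ((0, 0, x, u) : ℝ × ℝ × ℝ × (E × E)) :=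
    qq_contDiffAt hev.self_of_nhds
  have hcont : ContinuousAt (fun w : ℝ × ℝ × ℝ × (E × E) => 1 - w.1 * w.2.1 * qq a w)
      (0, 0, x, u) := by
    have h2 := hq0.continuousAt
    have h3 : ContinuousAt (fun w : ℝ × ℝ × ℝ × (E × E) => w.1 * w.2.1) (0, 0, x, u) := by
      fun_prop
    exact continuousAt_const.sub (h3.mul h2)
  have hne : ∀ᶠ w in 𝓝 ((0, 0, x, u) : ℝ × ℝ × ℝ × (E × E)), 1 - w.1 * w.2.1 * qq a w ≠ 0 := by
    apply hcont.eventually_ne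
    simp
  filter_upwards [hev, hne] with z hz hz2
  have ha : ContDiffAt ℝ ((⊤ : ℕ∞) : WithTop ℕ∞) (fun w => a (prj w)) z :=
    hz.comp z prj_contDiff.contDiffAt
  have hq := qq_contDiffAt hz
  have c1 : ContDiffAt ℝ ((⊤ : ℕ∞) : WithTop ℕ∞) (fun w : ℝ × ℝ × ℝ × (E × E) => w.1) z := by
    fun_prop
  have c2 : ContDiffAt ℝ ((⊤ : ℕ∞) : WithTop ℕ∞) (fun w : ℝ × ℝ × ℝ × (E × E) => w.2.1) z := by
    fun_prop
  have c3 : ContDiffAt ℝ ((⊤ : ℕ∞) : WithTop ℕ∞) (fun w : ℝ × ℝ × ℝ × (E × E) => w.2.2.1) z := by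
    fun_prop
  unfold Bil.mm
  refine ContDiffAt.div ?_ ?_ hz2
  · exact c2.mul ((hq.neg.add ((contDiffAt_const.mul c3).mul ha)).sub
      (((c3.pow 2).mul (c1.mul c2)).mul (ha.pow 2)))
  · exact contDiffAt_const.sub ((c1.mul c2).mul hq)

theorem mm_base {E : Type} [NormedAddCommGroup E] [NormedSpace ℝ E]
    (a : ℝ × ℝ × ℝ × E → ℝ) (t x : ℝ) (w : E × E) : mm a (t, 0, x, w) = 0 := by
  simp [mm]

theorem ts_eq (ε x : ℝ) : ts ε x = tt ε x / x ^ 2 := by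
  unfold ts tt k2; ring

/-- derivative of `f x = x - t ^ 2 a[u]`. -/
theorem hasDerivAt_f {E : Type} [NormedAddCommGroup E] [NormedSpace ℝ E]
    {a : ℝ × ℝ × ℝ × E → ℝ} {ε x : ℝ} (hx : 0 < x) {u : ℝ → E} (hu : DifferentiableAt ℝ u x)
    (ha : DifferentiableAt ℝ a (WW ε u x)) :
    HasDerivAt (fun y => y - tt ε y ^ 2 * a (WW ε u y))
      (1 - tt ε x * ts ε x * qq a (WW ε (fun y => (u y, th u y)) x)) x := by
  have h1 : HasDerivAt (tt ε) (deriv (tt ε) x) x := ((chi_diff x).const_mul ε).hasDerivAt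
  have h2 : HasDerivAt (fun y => a (WW ε u y)) (deriv (fun y => a (WW ε u y)) x) x := by
    have := ha.hasFDerivAt.comp_hasDerivAt x (hasDerivAt_WW (ε := ε) hx hu)
    exact this.differentiableAt.hasDerivAt
  have h3 := (hasDerivAt_id x).sub ((h1.pow 2).mul h2)
  refine (h3.congr_deriv ?_).congr_of_eventuallyEq ?_
  · have e1 := th_tt ε x
    have e2 := th_pro (ε := ε) hx hu ha
    unfold th at e1 e2
    rw [smul_eq_mul] at e1 e2
    have e3 : qq a (WW ε (fun y => (u y, th u y)) x) =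
        2 * kt x * a (WW ε u x) + pro a (WW ε (fun y => (u y, th u y)) x) := rfl
    have e4 : pro a (WW ε (fun y => (u y, th u y)) x) =
        x ^ 2 * deriv (fun y => a (WW ε u y)) x := e2.symm
    rw [e3, e4, ts_eq]
    have e5 : deriv (tt ε) x = kt x * tt ε x / x ^ 2 := by
      rw [← e1]; field_simp
    rw [e5]
    simp only [Pi.pow_apply, Nat.cast_ofNat]
    field_simp
    ring
  · exact Filter.EventuallyEq.rfl

/-- `(th φ)(f x) = (1 - t mm) • th (φ ∘ f) x`. -/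
theorem th_comp_f {E F : Type} [NormedAddCommGroup E] [NormedSpace ℝ E]
    [NormedAddCommGroup F] [NormedSpace ℝ F]
    {a : ℝ × ℝ × ℝ × E → ℝ} {ε x : ℝ} (hx : 0 < x) {u : ℝ → E} (hu : DifferentiableAt ℝ u x)
    (ha : DifferentiableAt ℝ a (WW ε u x))
    (hf : x - tt ε x ^ 2 * a (WW ε u x) ≠ 0)
    (hq : 1 - tt ε x * ts ε x * qq a (WW ε (fun y => (u y, th u y)) x) ≠ 0)
    {φ : ℝ → F} (hφ : DifferentiableAt ℝ φ (x - tt ε x ^ 2 * a (WW ε u x))) :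
    th φ (x - tt ε x ^ 2 * a (WW ε u x)) =
      (1 - tt ε x * mm a (WW ε (fun y => (u y, th u y)) x)) •
        th (fun y => φ (y - tt ε y ^ 2 * a (WW ε u y))) x := by
  have h1 := hasDerivAt_f (ε := ε) hx hu ha
  have h2 : HasDerivAt (fun y => φ (y - tt ε y ^ 2 * a (WW ε u y)))
      ((1 - tt ε x * ts ε x * qq a (WW ε (fun y => (u y, th u y)) x)) •
        deriv φ (x - tt ε x ^ 2 * a (WW ε u x))) x :=
    HasDerivAt.scomp x hφ.hasDerivAt h1
  change (x - tt ε x ^ 2 * a (WW ε u x)) ^ 2 • deriv φ (x - tt ε x ^ 2 * a (WW ε u x)) =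
    (1 - tt ε x * mm a (WW ε (fun y => (u y, th u y)) x)) •
      (x ^ 2 • deriv (fun y => φ (y - tt ε y ^ 2 * a (WW ε u y))) x)
  rw [h2.deriv, smul_smul, smul_smul]
  congr 1
  have e1 : mm a (WW ε (fun y => (u y, th u y)) x) =
      ts ε x * (- qq a (WW ε (fun y => (u y, th u y)) x) + 2 * x * a (WW ε u x)
        - x ^ 2 * (tt ε x * ts ε x) * a (WW ε u x) ^ 2) /
        (1 - tt ε x * ts ε x * qq a (WW ε (fun y => (u y, th u y)) x)) := rfl
  have e2 : tt ε x = x ^ 2 * ts ε x := by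
    rw [ts_eq]; field_simp
  have e3 : (1 - tt ε x * mm a (WW ε (fun y => (u y, th u y)) x)) *
      (1 - tt ε x * ts ε x * qq a (WW ε (fun y => (u y, th u y)) x)) =
      (1 - tt ε x * ts ε x * qq a (WW ε (fun y => (u y, th u y)) x)) -
        tt ε x * (ts ε x * (- qq a (WW ε (fun y => (u y, th u y)) x) + 2 * x * a (WW ε u x)
        - x ^ 2 * (tt ε x * ts ε x) * a (WW ε u x) ^ 2)) := by
    rw [e1]
    field_simp
  have e4 : (1 - tt ε x * mm a (WW ε (fun y => (u y, th u y)) x)) *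
      x ^ 2 * (1 - tt ε x * ts ε x * qq a (WW ε (fun y => (u y, th u y)) x)) =
      x ^ 2 * ((1 - tt ε x * mm a (WW ε (fun y => (u y, th u y)) x)) *
      (1 - tt ε x * ts ε x * qq a (WW ε (fun y => (u y, th u y)) x))) := by ring
  rw [e4, e3]
  generalize qq a (WW ε (fun y => (u y, th u y)) x) = q
  generalize a (WW ε u x) = b
  rw [e2]
  ring

/-- Compactness: a property that holds near every base point of the compact region holds
uniformly. -/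
theorem unif_base {E : Type} [NormedAddCommGroup E] [NormedSpace ℝ E]
    {K : Set E} (hK : IsCompact K) {x₀ x₁ : ℝ}
    {Q : ℝ × ℝ × ℝ × E → Prop} (h : ∀ x ∈ Icc x₀ x₁, ∀ u ∈ K, ∀ᶠ w in 𝓝 ((0, 0, x, u) : ℝ × ℝ × ℝ × E), Q w) :
    ∃ r > 0, ∀ t s : ℝ, |t| < r → |s| < r → ∀ x ∈ Icc x₀ x₁, ∀ u ∈ K, Q (t, s, x, u) := by
  have hC : IsCompact (Icc x₀ x₁ ×ˢ K) := isCompact_Icc.prod hK
  have h1 : ∀ᶠ p in 𝓝 ((0, 0) : ℝ × ℝ), ∀ y ∈ Icc x₀ x₁ ×ˢ K, Q (p.1, p.2, y.1, y.2) := by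
    apply hC.eventually_forall_of_forall_eventually
    rintro ⟨x, u⟩ ⟨hx, hu⟩
    have hcont : Tendsto (fun z : (ℝ × ℝ) × (ℝ × E) => ((z.1.1, z.1.2, z.2.1, z.2.2) :
        ℝ × ℝ × ℝ × E)) (𝓝 (((0, 0), (x, u)) : (ℝ × ℝ) × (ℝ × E)))
        (𝓝 ((0, 0, x, u) : ℝ × ℝ × ℝ × E)) := by
      have : Continuous (fun z : (ℝ × ℝ) × (ℝ × E) => ((z.1.1, z.1.2, z.2.1, z.2.2) :
        ℝ × ℝ × ℝ × E)) := by fun_prop
      exact this.tendsto _
    exact hcont.eventually (h x hx u hu)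
  obtain ⟨r, hr, hball⟩ := Metric.eventually_nhds_iff.1 h1
  refine ⟨r, hr, fun t s ht hs x hx u hu => ?_⟩
  refine hball (y := (t, s)) ?_ (x, u) ⟨hx, hu⟩
  rw [Prod.dist_eq, max_lt_iff]
  simpa [Real.dist_eq] using ⟨ht, hs⟩

end Prolong

end Pool.Agent.Helper58.Bil
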